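import Pool.Agent.H95F.ThS

/-!
# The first case of Fermat's Last Theorem over all number fields of a given degree at once

Let `m ≥ 2`, let `p ≥ 2 ^ (m ^ 2)` and `l ≠ p` be primes such that `l ^ (p - 1)` is not congruent to
`1` modulo `p ^ 2`, and let `l` be odd or `m` prime to three. Let `D` be divisible by all numbers
less than `2 ^ m` and let `L` be divisible by `l - 1, l ^ 2 - 1, ..., l ^ m - 1`. Then the first case
of Fermat's Last Theorem holds over ALL number fields `K` of degree `m` for all exponents divisible
by `D L p`: in every solution of `x ^ n + y ^ n = z ^ n` with `x y z ≠ 0` the three valuations at some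
prime above `p` are not all equal. The multiplier `D L` depends only on `m` and `l`. There is no
condition on Bernoulli numbers, on the class group and units of `K`, or on the decomposition of `p`.
For a given `K` it is enough that `L` is divisible by `N P - 1` for the primes `P` above `l`. For
degrees `m ≤ 4` it is enough that `p ≥ 17` and `D = 6` (`m ≤ 3`) or `D = 12` (`m = 4`). For instance
the first case holds over all quartic fields for the exponents divisible by `1260 p` if `p ≥ 17` and
`2 ^ (p - 1)` is not `1` modulo `p ^ 2`, and over all cubic fields for the exponents divisible by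
`624 p` if `p ≥ 17` and `3 ^ (p - 1)` is not `1` modulo `p ^ 2`.

Proof. Let `n = D k p`, `L ∣ k`. (1) For a divisor `e` of `D` put `d = D / e`, `u = z ^ (k e)`,
`v = y ^ (k e)`. The element `u - ζ v`, `ζ` a `p`-th root of unity, divides `u ^ (d p) - v ^ (d p)`, a
`d p`-th power, and its ideal is, up to the `p`-th power of an ideal, the ideal of a power of
`u ^ d - v ^ d`. So for `f (T) = N (u - T v)` the number `f (ζ)` of the field of `p`-th roots of unity
is a rational number times the `p`-th power of an ideal, and the Stickelberger relations for all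
Jacobi sums `J (χ, χ ^ a)` hold for it. (2) As `N P - 1` divides `k`, modulo a prime above `l` of a
field containing the conjugates exactly one of the conjugates of `x, y, z` vanishes and the `k`-th
powers of the others are `1`; let this be `x, y, z` for `α, β, δ` embeddings. So
`T ^ β f = ± T ^ δ f*` modulo `l`, `f*` the reversed polynomial; `f (ζ)` is prime to `l`, and as the
Frobenius at `l` does not fix the `p`-th roots of `ζ` the root of unity in the relation for `a` is
`(m + δ - β) h_a / 2`, where `h_a` is the sum of the inverses of the indices. (3) Modulo `(1 - ζ) ^ 2`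
the root of unity is `h_a f' (1) / f (1)`, and some `h_a` is not zero modulo `p`. Hence
`2 f' (1) = (m + δ - β) f (1)` modulo `p`. With the residues `a_j` of the conjugates of `(z / y) ^ k` in
a finite field of characteristic `p` this means that the sum of the `(a_j ^ e + 1) / (a_j ^ e - 1)` is
`β - δ` for ALL divisors `e` of `D`. (4) Clearing denominators, this is a linear relation with small
integer coefficients between the `e`-th powers of the `2 ^ m` products of some of the `a_j`; taking
`e = 0, 1, ..., 2 ^ m - 1` and a Vandermonde determinant, the coefficients belonging to equal products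
add up to zero modulo `p`, hence to zero, as `p` is large. So the relation holds as well for the
images of the `a_j` under a faithful character of the finite field with values in the complex numbers,
where `(b + 1) / (b - 1)` is purely imaginary for `|b| = 1`, while `β - δ` is real. So `β = δ`. (For
`m ≤ 4` the relations for the divisors of `6` or `12` are the vanishing at `η = ± 2, ± 1, 0` of a
polynomial of degree at most `m` in `η` whose leading coefficient is, up to a unit, `β - δ`.) In the
same way `α = δ`, so `3 δ = α + β + δ = m`; and `δ = 0` if `l` is odd, as `1 + 1 ≠ 0` modulo `l`.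
-/

set_option autoImplicit false

namespace Pool.Agent.H95F.Old.AllFieldsOfDegree

open NumberField IsDedekindDomain

theorem result (m p l D L n : ℕ) (hp : p.Prime) (hl : l.Prime) (hlp : l ≠ p)
    (hW : ¬ p ^ 2 ∣ l ^ (p - 1) - 1) (h3 : ¬ 3 ∣ m ∨ l ≠ 2)
    (hD : (2 ≤ m ∧ 2 ^ (m ^ 2) ≤ p ∧ ∀ e : ℕ, 0 < e → e < 2 ^ m → e ∣ D) ∨
      (17 ≤ p ∧ ((m ≤ 3 ∧ 6 ∣ D) ∨ (m ≤ 4 ∧ 12 ∣ D))))
    (K : Type) [Field K] [NumberField K] (hK : Module.finrank ℚ K = m)
    (hL : (∀ f : ℕ, 0 < f → f ≤ m → l ^ f - 1 ∣ L) ∨
      ∀ P : Ideal (𝓞 K), P.IsPrime → ((l : ℕ) : 𝓞 K) ∈ P → Nat.card (𝓞 K ⧸ P) - 1 ∣ L)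
    (hn : D * L * p ∣ n) (x y z : K) (h : x ^ n + y ^ n = z ^ n)
    (hx : x ≠ 0) (hy : y ≠ 0) (hz : z ≠ 0) :
    ∃ v : HeightOneSpectrum (𝓞 K), ((p : ℕ) : 𝓞 K) ∈ v.asIdeal ∧
      ¬ (v.valuation K x = v.valuation K y ∧ v.valuation K y = v.valuation K z) := by
  by_contra hcon
  push Not at hcon
  have hv : ∀ v : HeightOneSpectrum (𝓞 K), ((p : ℕ) : 𝓞 K) ∈ v.asIdeal →
      v.valuation K x = v.valuation K y ∧ v.valuation K y = v.valuation K z := fun v hv => hcon v hv
  have hL' : ∀ P : Ideal (𝓞 K), P.IsPrime → ((l : ℕ) : 𝓞 K) ∈ P →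
      Nat.card (𝓞 K ⧸ P) - 1 ∣ L := by
    rcases hL with hL | hL
    · intro P hP hlP
      obtain ⟨f, hf0, hf, hfe⟩ := H95F.card_eq_pow P hP l hl hlP
      rw [hfe]
      exact hL f hf0 (by rw [← hK]; exact hf)
    · exact hL
  have hn' : p * (D * L) ∣ n := by
    rw [mul_comm]
    exact hn
  rcases hD with ⟨h2, hpm, hDe⟩ | ⟨h17, hDe⟩
  · exact H95F.mainC hp hl hlp hW hK h2 hpm h3 D L n hDe hL' hn' hx hy hz h hv
  · exact H95F.mainS hp hl hlp hW hK h17 h3 D L n hDe hL' hn' hx hy hz h hv

end Pool.Agent.H95F.Old.AllFieldsOfDegree
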